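import Mathlib
import Pool.Agent.Helper48_LPY.Stmts
import Pool.Agent.Helper48_LPY.Basic

/-!
# LPY, module RND: the round
-/

set_option autoImplicit false

namespace Pool.Agent.LPY.H10

open Pool.Agent.LAX Pool.Agent.LPY

theorem rnd (hI : IteStmt) (hF : FctStmt) : RndStmt := by
  intro k l s I f hP V _ E hE
  obtain ⟨K, hK⟩ := hI k l s I f hP V E hE
  have h1 : 2 ^ (s + I + 3) < 2 ^ (s + f + 53 + 2 * l) := lt_of_le_of_lt hP.p3 hP.p4'
  have h2 : s + I + 3 < s + f + 53 + 2 * l := (Nat.pow_lt_pow_iff_right (by norm_num)).1 h1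
  have h3 : s = 3 * l + 64 := hP.p2
  have h4 : 2 ^ (s + I) ≤ 2 ^ (s + 1) * 2 ^ (s + f + 1 - 3) := by
    rw [← pow_add]
    exact Nat.pow_le_pow_right (by norm_num) (by omega)
  have h5 := hF V E (2 ^ (s + I)) (s + f + 1) (2 ^ (s + 1)) (2 ^ (s + 1)) K (by omega) hK h4
  have h6 : 2 ^ (s + 1) + 2 ^ (s + 1) = 2 ^ (s + 2) := by ring
  rwa [h6] at h5

end Pool.Agent.LPY.H10
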